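import Mathlib

set_option autoImplicit false

/-!
# Involutions permuted transitively by an abelian group of automorphisms
-/

namespace Pool.Agent.H61.RL

theorem square_lemma {G : Type*} [Group G] {a b c d : G} (ha : a * a = 1) (hb : b * b = 1)
    (hc : c * c = 1) (hd : d * d = 1) (hab : a * b = b * a) (hac : a * c = c * a)
    (hbd : b * d = d * b) (hcd : c * d = d * c)
    (h1 : (a * b) * (c * d) = (c * d) * (a * b)) (h2 : (a * c) * (b * d) = (b * d) * (a * c)) :
    (c * b) * (c * b) = (a * d) * (a * d) ∧ (b * c) * (b * c) = (a * d) * (a * d) := by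
  constructor
  · have e1 : b * c = c * (a * d * (a * d)) * b := by
      calc b * c = a * ((a * b) * (c * d)) * d := by
            simp only [mul_assoc, hd, mul_one]
            rw [← mul_assoc a a, ha, one_mul]
        _ = a * ((c * d) * (a * b)) * d := by rw [h1]
        _ = (a * c) * d * a * (b * d) := by simp only [mul_assoc]
        _ = (c * a) * d * a * (d * b) := by rw [hac, hbd]
        _ = c * (a * d * (a * d)) * b := by simp only [mul_assoc]
    calc (c * b) * (c * b) = c * (b * c) * b := by simp only [mul_assoc]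
      _ = c * (c * (a * d * (a * d)) * b) * b := by rw [e1]
      _ = (c * c) * (a * d * (a * d)) * (b * b) := by simp only [mul_assoc]
      _ = (a * d) * (a * d) := by rw [hc, hb, one_mul, mul_one]
  · have e1 : c * b = b * (a * d * (a * d)) * c := by
      calc c * b = a * ((a * c) * (b * d)) * d := by
            simp only [mul_assoc, hd, mul_one]
            rw [← mul_assoc a a, ha, one_mul]
        _ = a * ((b * d) * (a * c)) * d := by rw [h2]
        _ = (a * b) * d * a * (c * d) := by simp only [mul_assoc]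
        _ = (b * a) * d * a * (d * c) := by rw [hab, hcd]
        _ = b * (a * d * (a * d)) * c := by simp only [mul_assoc]
    calc (b * c) * (b * c) = b * (c * b) * c := by simp only [mul_assoc]
      _ = b * (b * (a * d * (a * d)) * c) * c := by rw [e1]
      _ = (b * b) * (a * d * (a * d)) * (c * c) := by simp only [mul_assoc]
      _ = (a * d) * (a * d) := by rw [hc, hb, one_mul, mul_one]

variable {G : Type*} [Group G]

theorem sq_one {x : G} (h : orderOf x = 2) : x * x = 1 := by
  rw [← pow_two, ← h, pow_orderOf_eq_one]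

theorem order_two {x : G} (h : x * x = 1) (h1 : x ≠ 1) : orderOf x = 2 :=
  orderOf_eq_prime (by rw [pow_two, h]) h1

theorem all_of_one {A : Subgroup (MulAut G)} (hA : ∀ a ∈ A, ∀ b ∈ A, a * b = b * a)
    (ht : ∀ x y : G, orderOf x = 2 → orderOf y = 2 → ∃ a ∈ A, a x = y) {α : MulAut G}
    (hα : α ∈ A) {i : G} (hi : orderOf i = 2) (h : Commute i (α i)) {x : G} (hx : x * x = 1) :
    Commute x (α x) := by
  by_cases h1 : x = 1
  · rw [h1]
    exact Commute.one_left _
  · obtain ⟨β, hβ, rfl⟩ := ht i x hi (order_two hx h1)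
    have e : α (β i) = β (α i) := by
      rw [← MulAut.mul_apply, hA α hα β hβ, MulAut.mul_apply]
    rw [e]
    exact h.map β

/-- **The involutions commute.** -/
theorem commute_inv (h2 : ∀ x y : G, orderOf x = 2 → orderOf y = 2 → ∃ n : ℕ, (x * y) ^ (2 ^ n) = 1)
    {A : Subgroup (MulAut G)} (hA : ∀ a ∈ A, ∀ b ∈ A, a * b = b * a)
    (ht : ∀ x y : G, orderOf x = 2 → orderOf y = 2 → ∃ a ∈ A, a x = y) {x y : G}
    (hx : orderOf x = 2) (hy : orderOf y = 2) : Commute x y := by
  classical
  by_contra hne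
  have hxx := sq_one hx
  have hyy := sq_one hy
  have hex := h2 x y hx hy
  obtain ⟨e, he, hmin⟩ : ∃ e, (x * y) ^ (2 ^ e) = 1 ∧ ∀ m < e, (x * y) ^ (2 ^ m) ≠ 1 :=
    ⟨Nat.find hex, Nat.find_spec hex, fun m hm => Nat.find_min hex hm⟩
  have hxi : x⁻¹ = x := inv_eq_of_mul_eq_one_right hxx
  have hyi : y⁻¹ = y := inv_eq_of_mul_eq_one_right hyy
  have hui : (x * y)⁻¹ = y * x := by rw [mul_inv_rev, hxi, hyi]
  have he2 : 2 ≤ e := by
    by_contra hlt
    have : (x * y) ^ 2 = 1 := by
      have h : e = 0 ∨ e = 1 := by omega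
      rcases h with rfl | rfl
      · rw [pow_zero, pow_one] at he
        rw [he, one_pow]
      · simpa using he
    apply hne
    have h3 : (x * y)⁻¹ = x * y := inv_eq_of_mul_eq_one_right (by rw [← pow_two, this])
    rw [hui] at h3
    exact h3.symm
  obtain ⟨k, rfl⟩ : ∃ k, e = k + 1 := ⟨e - 1, by omega⟩
  set u := x * y with hu
  set w := u ^ (2 ^ k) with hw
  have hw1 : w ≠ 1 := hmin k (by omega)
  have hww : w * w = 1 := by
    rw [hw, ← pow_add, ← two_mul, ← pow_succ', he]
  have hwo : orderOf w = 2 := order_two hww hw1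
  have hwi : w⁻¹ = w := inv_eq_of_mul_eq_one_right hww
  have hconj : ∀ t : G, t * u * t⁻¹ = u⁻¹ → Commute t w := by
    intro t h
    have h3 : t * w * t⁻¹ = w := by
      rw [hw, ← conj_pow, h, inv_pow, ← hw, hwi]
    exact mul_inv_eq_iff_eq_mul.1 h3
  have hxw : Commute x w := hconj x (by rw [hui, hxi, hu, ← mul_assoc, hxx, one_mul])
  have hyw : Commute y w := hconj y (by rw [hui, hyi, hu, mul_assoc, mul_assoc, hyy, mul_one])
  obtain ⟨ζ, hζ, hζx⟩ := ht x w hx hwo
  obtain ⟨η, hη, hηx⟩ := ht x y hx hy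
  have hγ : η * ζ⁻¹ ∈ A := A.mul_mem hη (A.inv_mem hζ)
  set γ := η * ζ⁻¹ with hγd
  have hγw : γ w = y := by
    rw [hγd, MulAut.mul_apply, ← hζx, MulAut.inv_apply_self, hηx]
  have Pζ : ∀ t : G, t * t = 1 → Commute t (ζ t) := fun t => all_of_one hA ht hζ hx
    (by rw [hζx]; exact hxw)
  have Pγ : ∀ t : G, t * t = 1 → Commute t (γ t) := fun t => all_of_one hA ht hγ hwo
    (by rw [hγw]; exact hyw.symm)
  have hcc : γ x * γ x = 1 := by rw [← map_mul, hxx, map_one]
  have hζγ : ζ (γ x) = y := by
    rw [← MulAut.mul_apply, hA ζ hζ γ hγ, MulAut.mul_apply, hζx, hγw]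
  have hsq : ∀ s t : G, s * s = 1 → t * t = 1 → Commute s t → (s * t) * (s * t) = 1 := by
    intro s t hs ht' hst
    rw [← pow_two, hst.mul_pow, pow_two, pow_two, hs, ht', one_mul]
  have hxc : Commute x (γ x) := Pγ x hxx
  have h1 := Pγ (x * w) (hsq x w hxx hww hxw)
  have h2' := Pζ (x * γ x) (hsq x (γ x) hxx hcc hxc)
  rw [map_mul, hγw] at h1
  rw [map_mul, hζx, hζγ] at h2'
  have hcd : Commute (γ x) y := by
    have := Pζ (γ x) hcc
    rwa [hζγ] at this
  obtain ⟨s1, s2⟩ := square_lemma (a := x) (b := w) (c := γ x) (d := y) hxx hww hcc hyy hxw.eq hxc.eq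
    hyw.symm.eq hcd.eq h1.eq h2'.eq
  -- `z = u * u`
  have hz : u * u * (u * u) = 1 := by
    have : (w * γ x * (w * γ x)) * (γ x * w * (γ x * w)) = 1 := by
      have e1 : (w * γ x * (w * γ x)) * (γ x * w * (γ x * w)) =
          w * γ x * w * (γ x * γ x) * w * (γ x * w) := by simp only [mul_assoc]
      rw [e1, hcc, mul_one]
      have e2 : w * γ x * w * w * (γ x * w) = w * γ x * (w * w) * (γ x * w) := by
        simp only [mul_assoc]
      rw [e2, hww, mul_one]
      have e3 : w * γ x * (γ x * w) = w * (γ x * γ x) * w := by simp only [mul_assoc]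
      rw [e3, hcc, mul_one, hww]
    rwa [s1, s2] at this
  have hk : k = 1 := by
    by_contra hk
    have h3 : u ^ (2 ^ 2) = 1 := by
      rw [← hz]
      simp only [← pow_two, ← pow_mul]
    exact hmin 2 (by omega) h3
  have hwu : w = u * u := by
    rw [hw, hk, pow_one, pow_two]
  -- `w` commutes with `γ x`
  have hwc : Commute (γ x) w := by
    have e1 : γ x * (w * γ x * (w * γ x)) = γ x * w * (γ x * w) * γ x := by simp only [mul_assoc]
    rw [s1, s2, ← hwu] at e1
    exact e1
  apply hw1
  rw [hwu, ← s2]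
  exact hsq w (γ x) hww hcc hwc.symm

end Pool.Agent.H61.RL
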