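import Mathlib

set_option autoImplicit false

/-!
# Sanov's theorem: groups of exponent four are locally finite
-/

namespace Pool.Agent.H61.RL.Sanov

variable {G : Type*} [Group G] {H : Subgroup G}

/-- `x h₁ x h₂ ⋯ x hₙ` -/
def E (x : G) : List H → G
  | [] => 1
  | h :: l => x * h * E x l

theorem E_append (x : G) (l m : List H) : E x (l ++ m) = E x l * E x m := by
  induction l with
  | nil => simp [E]
  | cons h l ih => simp only [List.cons_append, E, ih, mul_assoc]

/-- the value reachable in the first place -/
def c (k : H) : List H → H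
  | [] => 1
  | [h] => h
  | h :: (g :: l) => h * (c k (g :: l))⁻¹ * k

theorem move (h4 : ∀ g : G, g ^ 4 = 1) (x k a : G) (hk : k = x⁻¹ * x⁻¹) :
    x * a * x = a⁻¹ * k * x * a⁻¹ * x * k * a⁻¹ := by
  have h := h4 (x * a)
  have h1 : x * a * x = (a * x * a * x * a)⁻¹ := by
    rw [eq_inv_iff_mul_eq_one, ← h]
    simp only [pow_succ, pow_zero, one_mul, mul_assoc]
  rw [h1, hk]
  group

theorem reach (h4 : ∀ g : G, g ^ 4 = 1) (x : G) (k : H) (hk : (k : G) = x⁻¹ * x⁻¹) (l : List H)
    (hl : l ≠ []) (t : H) : ∃ l2 : List H, l2.length = l.length ∧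
      E x (l ++ [t]) = x * (c k l : G) * E x l2 := by
  induction l with
  | nil => exact absurd rfl hl
  | cons h l ih =>
    cases l with
    | nil => exact ⟨[t], rfl, by simp [E, c, mul_assoc]⟩
    | cons g l =>
      obtain ⟨l2, hlen, hE⟩ := ih (by simp)
      cases l2 with
      | nil => simp at hlen
      | cons b l3 =>
        refine ⟨(c k (g :: l))⁻¹ :: (k * (c k (g :: l))⁻¹ * b) :: l3, by simpa using hlen, ?_⟩
        rw [List.cons_append]
        change x * (h : G) * E x (g :: l ++ [t]) = _
        rw [hE]
        change x * (h : G) * (x * (c k (g :: l) : G) * (x * b * E x l3)) = _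
        have hm := move h4 x k (c k (g :: l) : G) hk
        have e1 : x * (h : G) * (x * (c k (g :: l) : G) * (x * b * E x l3)) =
            x * h * (x * (c k (g :: l) : G) * x) * (b * E x l3) := by simp only [mul_assoc]
        rw [e1, hm]
        simp only [E, c, Subgroup.coe_mul, Subgroup.coe_inv, mul_assoc]

theorem c_eq (k : H) (A B : List H) (hA : A ≠ []) (hB : B ≠ []) (h : c k (A ++ B) = c k A) :
    c k B = k := by
  induction A with
  | nil => exact absurd rfl hA
  | cons a A ih =>
    cases A with
    | nil =>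
      cases B with
      | nil => exact absurd rfl hB
      | cons b B =>
        have h1 : a * (c k (b :: B))⁻¹ * k = a := h
        rw [mul_assoc, mul_eq_left, inv_mul_eq_one] at h1
        exact h1
    | cons a' A =>
      apply ih (by simp)
      have h1 : a * (c k (a' :: A ++ B))⁻¹ * k = a * (c k (a' :: A))⁻¹ * k := h
      rw [mul_left_inj, mul_right_inj, inv_inj] at h1
      exact h1

theorem shorten (h4 : ∀ g : G, g ^ 4 = 1) (x : G) (k : H) (hk : (k : G) = x⁻¹ * x⁻¹) [Finite H]
    (L : List H) (hL : Nat.card H + 1 < L.length) :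
    ∃ L' : List H, L'.length < L.length ∧ E x L' = E x L := by
  have : Fintype H := Fintype.ofFinite H
  obtain ⟨i, j, hij, he⟩ := Fintype.exists_ne_map_eq_of_card_lt
    (fun i : Fin (L.length - 1) => c k (L.take (i + 1)))
    (by rw [Fintype.card_fin, ← Nat.card_eq_fintype_card]; omega)
  wlog hlt : i < j generalizing i j
  · exact this j i hij.symm he.symm (lt_of_le_of_ne (not_lt.1 hlt) hij.symm)
  have hi := i.2
  have hj := j.2
  have hij' : (i : ℕ) < j := hlt
  set A := L.take (i + 1) with hA
  set B := (L.drop (i + 1)).take (j - i) with hB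
  set C := L.drop (j + 1) with hC
  have hAB : A ++ B = L.take (j + 1) := by
    rw [hA, hB, ← List.take_add]
    congr 1
    omega
  have hL' : L = A ++ B ++ C := by
    rw [hAB, hC, List.take_append_drop]
  have hlA : A.length = i + 1 := by
    rw [hA, List.length_take]
    omega
  have hlB : B.length = j - i := by
    rw [hB, List.length_take, List.length_drop]
    omega
  have hlC : C.length = L.length - (j + 1) := by
    rw [hC, List.length_drop]
  have hA0 : A ≠ [] := by
    intro h
    rw [h] at hlA
    simp at hlA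
  have hB0 : B ≠ [] := by
    intro h
    rw [h] at hlB
    simp at hlB
    omega
  have hcB : c k B = k := by
    apply c_eq k A B hA0 hB0
    rw [hAB]
    exact he.symm
  obtain ⟨t, C', hC'⟩ : ∃ t C', C = t :: C' := by
    cases hCC : C with
    | nil =>
      rw [hCC] at hlC
      simp at hlC
      omega
    | cons t C' => exact ⟨t, C', rfl⟩
  obtain ⟨l2, hlen, hE⟩ := reach h4 x k hk B hB0 t
  obtain ⟨b, l3, rfl⟩ : ∃ b l3, l2 = b :: l3 := by
    cases l2 with
    | nil =>
      simp at hlen
      omega
    | cons b l3 => exact ⟨b, l3, rfl⟩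
  obtain ⟨A', a, hAa⟩ : ∃ A' a, A = A' ++ [a] := by
    rcases List.eq_nil_or_concat A with h | ⟨A', a, h⟩
    · exact absurd h hA0
    · exact ⟨A', a, by rw [h, List.concat_eq_append]⟩
  refine ⟨A' ++ [a * b] ++ (l3 ++ C'), ?_, ?_⟩
  · have h1 := congrArg List.length hAa
    have h2 := congrArg List.length hC'
    simp only [List.length_append, List.length_cons, List.length_nil] at h1 h2 hlen ⊢
    omega
  · rw [hL', hC', show A ++ B ++ t :: C' = A ++ (B ++ [t]) ++ C' by simp]
    rw [E_append x (A ++ (B ++ [t])), E_append x A, hE, hcB, hk, hAa, E_append, E_append, E_append,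
      E_append]
    simp only [E, mul_one, Subgroup.coe_mul]
    group

theorem bounded (h4 : ∀ g : G, g ^ 4 = 1) (x : G) (k : H) (hk : (k : G) = x⁻¹ * x⁻¹) [Finite H]
    (L : List H) : ∃ L' : List H, L'.length ≤ Nat.card H + 1 ∧ E x L' = E x L := by
  induction hn : L.length using Nat.strong_induction_on generalizing L with
  | _ n ih =>
    by_cases h : Nat.card H + 1 < L.length
    · obtain ⟨L', h1, h2⟩ := shorten h4 x k hk L h
      obtain ⟨L'', h3, h5⟩ := ih L'.length (by omega) L' rfl
      exact ⟨L'', h3, h5.trans h2⟩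
    · exact ⟨L, by omega, rfl⟩

theorem finite_closure (h4 : ∀ g : G, g ^ 4 = 1) (x : G) (hx : x * x ∈ H) [Finite H] :
    Finite (Subgroup.closure ((H : Set G) ∪ {x})) := by
  let k : H := ⟨x⁻¹ * x⁻¹, by
    have := H.inv_mem hx
    rwa [mul_inv_rev] at this⟩
  have hk : (k : G) = x⁻¹ * x⁻¹ := rfl
  let M : Set G := {g | ∃ (h : H) (l : List H), g = h * E x l}
  have hM : ∀ g ∈ Subgroup.closure ((H : Set G) ∪ {x}), g ∈ M := by
    intro g hg
    have hmul : ∀ (g : G), g ∈ M → ∀ s ∈ (H : Set G) ∪ {x}, g * s ∈ M ∧ g * s⁻¹ ∈ M := by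
      have hmh : ∀ (g : G), g ∈ M → ∀ s ∈ H, g * s ∈ M := by
        rintro _ ⟨h, l, rfl⟩ s hs
        rcases List.eq_nil_or_concat l with rfl | ⟨l', a, rfl⟩
        · exact ⟨h * ⟨s, hs⟩, [], by simp [E]⟩
        · refine ⟨h, l' ++ [a * ⟨s, hs⟩], ?_⟩
          simp [E_append, E, mul_assoc]
      have hmx : ∀ (g : G), g ∈ M → g * x ∈ M := by
        rintro _ ⟨h, l, rfl⟩
        exact ⟨h, l ++ [1], by simp [E_append, E, mul_assoc]⟩
      rintro g hg s (hs | hs)
      · exact ⟨hmh g hg s hs, hmh g hg _ (H.inv_mem hs)⟩
      · rw [Set.mem_singleton_iff] at hs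
        subst hs
        refine ⟨hmx g hg, ?_⟩
        have := hmh _ (hmx g hg) _ k.2
        rw [hk] at this
        have e : g * s * (s⁻¹ * s⁻¹) = g * s⁻¹ := by group
        rwa [e] at this
    induction hg using Subgroup.closure_induction_right with
    | one => exact ⟨1, [], by simp [E]⟩
    | mul_right y hy s hs ih => exact (hmul _ ih s hs).1
    | mul_inv_cancel y hy s hs ih => exact (hmul _ ih s hs).2
  have hfin : Set.Finite (Subgroup.closure ((H : Set G) ∪ {x}) : Set G) := by
    have hL : Set.Finite {l : List H | l.length ≤ Nat.card H + 1} :=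
      List.finite_length_le H _
    have h1 : Set.Finite ((fun p : H × List H => (p.1 : G) * E x p.2) ''
        (Set.univ ×ˢ {l : List H | l.length ≤ Nat.card H + 1})) :=
      (Set.finite_univ.prod hL).image _
    refine h1.subset ?_
    intro g hg
    obtain ⟨h, l, rfl⟩ := hM g hg
    obtain ⟨L', h2, h3⟩ := bounded h4 x k hk l
    exact ⟨(h, L'), ⟨Set.mem_univ _, h2⟩, by simp only [h3]⟩
  exact hfin.to_subtype

theorem sanov (h4 : ∀ g : G, g ^ 4 = 1) (s : Finset G) :
    Finite (Subgroup.closure (s : Set G)) := by
  classical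
  induction s using Finset.induction_on with
  | empty =>
    rw [Finset.coe_empty, Subgroup.closure_empty]
    infer_instance
  | insert x s _ ih =>
    have h1 : Finite (Subgroup.closure (((Subgroup.closure (s : Set G) : Subgroup G) : Set G) ∪
        {x * x})) := by
      apply finite_closure h4
      have : x * x * (x * x) = 1 := by
        rw [← h4 x]
        simp only [pow_succ, pow_zero, one_mul, mul_assoc]
      rw [this]
      exact Subgroup.one_mem _
    have h2 := finite_closure (H := Subgroup.closure
      (((Subgroup.closure (s : Set G) : Subgroup G) : Set G) ∪ {x * x})) h4 x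
      (Subgroup.subset_closure (Or.inr rfl))
    refine Finite.Set.subset (s := ((Subgroup.closure (((Subgroup.closure
      (((Subgroup.closure (s : Set G) : Subgroup G) : Set G) ∪ {x * x}) : Subgroup G) : Set G) ∪
      {x}) : Subgroup G) : Set G)) ?_
    change ((Subgroup.closure ((insert x s : Finset G) : Set G) : Subgroup G) : Set G) ⊆ _
    rw [SetLike.coe_subset_coe, Subgroup.closure_le]
    intro y hy
    rw [Finset.coe_insert] at hy
    rcases hy with rfl | hy
    · exact Subgroup.subset_closure (Or.inr rfl)
    · exact Subgroup.subset_closure (Or.inl (Subgroup.subset_closure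
        (Or.inl (Subgroup.subset_closure hy))))

end Pool.Agent.H61.RL.Sanov
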