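import Pool.Agent.H61.RL.Comm
import Pool.Agent.H61.RL.Sanov

set_option autoImplicit false

/-!
# Groups of exponent eight with commuting involutions are locally finite
-/

namespace Pool.Agent.H61.RL

variable {G : Type*} [Group G]

/-- the subgroup of the involutions and `1`, if these commute -/
def VV (hc : ∀ x y : G, x * x = 1 → y * y = 1 → x * y = y * x) : Subgroup G where
  carrier := {x | x * x = 1}
  one_mem' := by simp
  mul_mem' := by
    intro x y hx hy
    change x * y * (x * y) = 1
    have e : x * y * (x * y) = x * (y * x) * y := by simp only [mul_assoc]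
    rw [e, ← hc x y hx hy]
    have e2 : x * (x * y) * y = (x * x) * (y * y) := by simp only [mul_assoc]
    rw [e2, hx, hy, mul_one]
  inv_mem' := by
    intro x hx
    change x⁻¹ * x⁻¹ = 1
    rw [← mul_inv_rev, hx, inv_one]

theorem VV_normal (hc : ∀ x y : G, x * x = 1 → y * y = 1 → x * y = y * x) : (VV hc).Normal :=
  ⟨fun y hy g => by
    change g * y * g⁻¹ * (g * y * g⁻¹) = 1
    have e1 : g * y * g⁻¹ * (g * y * g⁻¹) = g * (y * y) * g⁻¹ := by group
    rw [e1, show y * y = 1 from hy, mul_one, mul_inv_cancel]⟩

/-- Groups of exponent dividing 8 with commuting involutions are locally finite. -/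
theorem finite_of_eight (hc : ∀ x y : G, x * x = 1 → y * y = 1 → x * y = y * x)
    (h8 : ∀ g : G, g ^ 8 = 1) (H : Subgroup G) (hH : H.FG) : Finite H := by
  classical
  have := VV_normal hc
  have h4 : ∀ q : G ⧸ VV hc, q ^ 4 = 1 := by
    intro q
    obtain ⟨g, rfl⟩ := QuotientGroup.mk'_surjective (VV hc) q
    rw [← map_pow]
    refine (QuotientGroup.eq_one_iff _).2 ?_
    change g ^ 4 * g ^ 4 = 1
    rw [← pow_add, h8]
  have hHfg : Group.FG H := (Group.fg_iff_subgroup_fg H).2 hH
  let f : H →* G ⧸ VV hc := (QuotientGroup.mk' (VV hc)).comp H.subtype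
  have hr : Finite f.range := by
    obtain ⟨s, hs⟩ := hHfg.out
    have : f.range = Subgroup.closure ((s.image f : Finset (G ⧸ VV hc)) : Set (G ⧸ VV hc)) := by
      rw [Finset.coe_image, ← MonoidHom.map_closure, hs, MonoidHom.range_eq_map]
    rw [this]
    exact Sanov.sanov h4 _
  have hker : ∀ x ∈ f.ker, (x : G) * x = 1 := by
    intro x hx
    have h1 : QuotientGroup.mk' (VV hc) (x : G) = 1 := hx
    exact (QuotientGroup.eq_one_iff _).1 h1
  have hidx : f.ker.FiniteIndex := by
    refine ⟨?_⟩
    rw [Subgroup.index_ker]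
    exact Nat.card_pos.ne'
  have hkfg : Group.FG f.ker := inferInstance
  let _ : CommGroup f.ker :=
    { (inferInstance : Group f.ker) with
      mul_comm := fun x y => by
        apply Subtype.ext
        apply Subtype.ext
        exact hc _ _ (hker x.1 x.2) (hker y.1 y.2) }
  have htors : IsMulTorsion f.ker := by
    intro x
    rw [isOfFinOrder_iff_pow_eq_one]
    refine ⟨2, by norm_num, ?_⟩
    apply Subtype.ext
    apply Subtype.ext
    rw [pow_two]
    exact hker x.1 x.2
  have hkf : Finite f.ker := CommGroup.finite_of_fg_isMulTorsion f.ker htors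
  have hq : Finite (H ⧸ f.ker) :=
    Finite.of_equiv _ (QuotientGroup.quotientKerEquivRange f).symm.toEquiv
  exact Finite.of_equiv _ (Subgroup.groupEquivQuotientProdSubgroup (s := f.ker)).symm

end Pool.Agent.H61.RL
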