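import Pool.Agent.H61.RL.Comm

set_option autoImplicit false

/-!
# The field
-/

namespace Pool.Agent.H61.RL

open Function

/-- Setting: a subgroup `V` and a commutative group of automorphisms. -/
structure Setting (G : Type) [Group G] (A : Subgroup (MulAut G)) : Prop where
  comm : ∀ a ∈ A, ∀ b ∈ A, a * b = b * a
  trans : ∀ x y : G, orderOf x = 2 → orderOf y = 2 → ∃ a ∈ A, a x = y
  two : ∀ x y : G, orderOf x = 2 → orderOf y = 2 → ∃ n : ℕ, (x * y) ^ (2 ^ n) = 1
  reg : ∀ a ∈ A, a ≠ 1 → ∀ g : G, g ≠ 1 → a g ≠ g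

variable {G : Type} [Group G] {A : Subgroup (MulAut G)}

theorem Setting.commute (h : Setting G A) {x y : G} (hx : x * x = 1) (hy : y * y = 1) :
    x * y = y * x := by
  by_cases h1 : x = 1
  · rw [h1, one_mul, mul_one]
  by_cases h2 : y = 1
  · rw [h2, one_mul, mul_one]
  exact (commute_inv h.two h.comm h.trans (order_two hx h1) (order_two hy h2)).eq

/-- the subgroup of the involutions and `1` -/
def Setting.V (h : Setting G A) : Subgroup G where
  carrier := {x | x * x = 1}
  one_mem' := by simp
  mul_mem' := by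
    intro x y hx hy
    change x * y * (x * y) = 1
    have e : x * y * (x * y) = x * (y * x) * y := by simp only [mul_assoc]
    rw [e, ← h.commute hx hy]
    have e2 : x * (x * y) * y = (x * x) * (y * y) := by simp only [mul_assoc]
    rw [e2, hx, hy, mul_one]
  inv_mem' := by
    intro x hx
    change x⁻¹ * x⁻¹ = 1
    rw [← mul_inv_rev, hx, inv_one]

/-- the additive group of the field -/
abbrev Setting.FF (h : Setting G A) : Type := Additive h.V

noncomputable instance (h : Setting G A) : AddCommGroup h.FF :=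
  { (inferInstance : AddGroup (Additive h.V)) with
    add_comm := fun x y => by
      apply Additive.toMul.injective
      apply Subtype.ext
      exact h.commute x.toMul.2 y.toMul.2 }

/-- the action of `A` on the additive group -/
def Setting.act (h : Setting G A) (a : MulAut G) (x : h.FF) : h.FF :=
  Additive.ofMul ⟨a (x.toMul : G), by
    change a (x.toMul : G) * a (x.toMul : G) = 1
    rw [← map_mul, x.toMul.2, map_one]⟩

theorem Setting.act_add (h : Setting G A) (a : MulAut G) (x y : h.FF) :
    h.act a (x + y) = h.act a x + h.act a y := by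
  apply Additive.toMul.injective
  apply Subtype.ext
  exact map_mul a _ _

theorem Setting.act_mul (h : Setting G A) (a b : MulAut G) (x : h.FF) :
    h.act (a * b) x = h.act a (h.act b x) := rfl

theorem Setting.act_one (h : Setting G A) (x : h.FF) : h.act 1 x = x := rfl

theorem Setting.act_zero (h : Setting G A) (a : MulAut G) : h.act a 0 = 0 := by
  apply Additive.toMul.injective
  apply Subtype.ext
  exact map_one a

theorem Setting.coe_ne (h : Setting G A) {x : h.FF} (hx : x ≠ 0) : (x.toMul : G) ≠ 1 := by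
  intro h1
  apply hx
  apply Additive.toMul.injective
  exact Subtype.ext h1

theorem Setting.exists_act (h : Setting G A) {i x : h.FF} (hi : i ≠ 0) (hx : x ≠ 0) :
    ∃ a ∈ A, h.act a i = x := by
  obtain ⟨a, ha, he⟩ := h.trans (i.toMul : G) (x.toMul : G)
    (order_two i.toMul.2 (h.coe_ne hi)) (order_two x.toMul.2 (h.coe_ne hx))
  refine ⟨a, ha, ?_⟩
  apply Additive.toMul.injective
  exact Subtype.ext he

theorem Setting.eq_one (h : Setting G A) {i : h.FF} (hi : i ≠ 0) {a : MulAut G} (ha : a ∈ A)
    (he : h.act a i = i) : a = 1 := by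
  by_contra h1
  exact h.reg a ha h1 _ (h.coe_ne hi) (congrArg (fun z : h.FF => (z.toMul : G)) he)

theorem Setting.eq_of_act (h : Setting G A) {i : h.FF} (hi : i ≠ 0) {a b : MulAut G} (ha : a ∈ A)
    (hb : b ∈ A) (he : h.act a i = h.act b i) : a = b := by
  have h1 : h.act (b⁻¹ * a) i = i := by
    rw [h.act_mul, he, ← h.act_mul, inv_mul_cancel, h.act_one]
  have h2 := h.eq_one hi (A.mul_mem (A.inv_mem hb) ha) h1
  rw [inv_mul_eq_one] at h2
  exact h2.symm

theorem Setting.act_ne (h : Setting G A) {x : h.FF} (hx : x ≠ 0) (a : MulAut G) :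
    h.act a x ≠ 0 := by
  intro h1
  apply hx
  have : h.act (a⁻¹ * a) x = 0 := by rw [h.act_mul, h1, h.act_zero]
  rwa [inv_mul_cancel, h.act_one] at this

open Classical in
/-- the element of `A` which takes `i` to `x` -/
noncomputable def Setting.el (h : Setting G A) (i x : h.FF) (hi : i ≠ 0) : MulAut G :=
  if hx : x = 0 then 1 else (h.exists_act hi hx).choose

theorem Setting.el_mem (h : Setting G A) (i x : h.FF) (hi : i ≠ 0) : h.el i x hi ∈ A := by
  unfold Setting.el
  split_ifs with hx
  · exact A.one_mem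
  · exact (h.exists_act hi hx).choose_spec.1

theorem Setting.el_act (h : Setting G A) (i x : h.FF) (hi : i ≠ 0) (hx : x ≠ 0) :
    h.act (h.el i x hi) i = x := by
  unfold Setting.el
  rw [dif_neg hx]
  exact (h.exists_act hi hx).choose_spec.2

open Classical in
/-- the multiplication -/
noncomputable def Setting.mul (h : Setting G A) (i : h.FF) (hi : i ≠ 0) (x y : h.FF) : h.FF :=
  if x = 0 then 0 else h.act (h.el i x hi) y

theorem Setting.mul_act (h : Setting G A) (i : h.FF) (hi : i ≠ 0) {a : MulAut G} (ha : a ∈ A)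
    (y : h.FF) : h.mul i hi (h.act a i) y = h.act a y := by
  unfold Setting.mul
  rw [if_neg (h.act_ne hi a)]
  congr 1
  exact h.eq_of_act hi (h.el_mem i _ hi) ha (h.el_act i _ hi (h.act_ne hi a))

theorem Setting.zero_mul (h : Setting G A) (i : h.FF) (hi : i ≠ 0) (y : h.FF) :
    h.mul i hi 0 y = 0 := by
  unfold Setting.mul
  rw [if_pos rfl]

theorem Setting.mul_zero (h : Setting G A) (i : h.FF) (hi : i ≠ 0) (x : h.FF) :
    h.mul i hi x 0 = 0 := by
  unfold Setting.mul
  split_ifs
  · rfl
  · exact h.act_zero _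

theorem Setting.mul_add (h : Setting G A) (i : h.FF) (hi : i ≠ 0) (x y z : h.FF) :
    h.mul i hi x (y + z) = h.mul i hi x y + h.mul i hi x z := by
  unfold Setting.mul
  split_ifs
  · rw [add_zero]
  · exact h.act_add _ _ _

theorem Setting.mul_comm (h : Setting G A) (i : h.FF) (hi : i ≠ 0) (x y : h.FF) :
    h.mul i hi x y = h.mul i hi y x := by
  by_cases hx : x = 0
  · rw [hx, h.zero_mul, h.mul_zero]
  by_cases hy : y = 0
  · rw [hy, h.zero_mul, h.mul_zero]
  obtain ⟨a, ha, rfl⟩ := h.exists_act hi hx
  obtain ⟨b, hb, rfl⟩ := h.exists_act hi hy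
  rw [h.mul_act i hi ha, h.mul_act i hi hb, ← h.act_mul, ← h.act_mul, h.comm a ha b hb]

theorem Setting.mul_assoc (h : Setting G A) (i : h.FF) (hi : i ≠ 0) (x y z : h.FF) :
    h.mul i hi (h.mul i hi x y) z = h.mul i hi x (h.mul i hi y z) := by
  by_cases hx : x = 0
  · rw [hx, h.zero_mul, h.zero_mul, h.zero_mul]
  by_cases hy : y = 0
  · rw [hy, h.mul_zero, h.zero_mul, h.mul_zero]
  obtain ⟨a, ha, rfl⟩ := h.exists_act hi hx
  obtain ⟨b, hb, rfl⟩ := h.exists_act hi hy
  rw [h.mul_act i hi ha, h.mul_act i hi hb, h.mul_act i hi ha, ← h.act_mul,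
    h.mul_act i hi (A.mul_mem ha hb), h.act_mul]

theorem Setting.one_mul (h : Setting G A) (i : h.FF) (hi : i ≠ 0) (x : h.FF) :
    h.mul i hi i x = x := by
  have := h.mul_act i hi A.one_mem x
  rwa [h.act_one, h.act_one] at this

/-- **The field.** -/
@[reducible] noncomputable def Setting.fld (h : Setting G A) (i : h.FF) (hi : i ≠ 0) : Field h.FF :=
  { (inferInstance : AddCommGroup h.FF) with
    mul := h.mul i hi
    one := i
    left_distrib := h.mul_add i hi
    right_distrib := fun x y z => by
      change h.mul i hi (x + y) z = h.mul i hi x z + h.mul i hi y z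
      rw [h.mul_comm i hi, h.mul_add, h.mul_comm i hi x z, h.mul_comm i hi y z]
    zero_mul := h.zero_mul i hi
    mul_zero := h.mul_zero i hi
    mul_assoc := h.mul_assoc i hi
    mul_comm := h.mul_comm i hi
    one_mul := h.one_mul i hi
    mul_one := fun x => by
      change h.mul i hi x i = x
      rw [h.mul_comm i hi, h.one_mul]
    exists_pair_ne := ⟨i, 0, hi⟩
    inv := fun x => open Classical in if x = 0 then 0 else h.act (h.el i x hi)⁻¹ i
    mul_inv_cancel := fun x hx => by
      change h.mul i hi x (open Classical in if x = 0 then 0 else h.act (h.el i x hi)⁻¹ i) = i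
      rw [if_neg hx]
      unfold Setting.mul
      rw [if_neg hx, ← h.act_mul, mul_inv_cancel, h.act_one]
    inv_zero := by
      change (open Classical in if (0 : h.FF) = 0 then (0 : h.FF) else _) = 0
      rw [if_pos rfl]
    nnqsmul := _
    nnqsmul_def := fun _ _ => rfl
    qsmul := _
    qsmul_def := fun _ _ => rfl }

end Pool.Agent.H61.RL
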